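import Pool.Agent.FS.A20Deg.Root

/-! A connected graph with a reducible part obeys the asymptotic isolation bound exactly. -/

set_option autoImplicit false

namespace Pool.Agent.FS.A20Deg

open Finset

variable {W V : Type}

open Classical in
/-- The component of `u` in `G[U]`. -/
noncomputable def comp (G : SimpleGraph V) (U : Finset V) (u : V) : Finset V :=
  U.filter fun a => Rch G U u a

theorem mem_comp {G : SimpleGraph V} {U : Finset V} {u a : V} :
    a ∈ comp G U u ↔ a ∈ U ∧ Rch G U u a := by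
  classical
  unfold comp
  exact mem_filter

theorem self_mem_comp {G : SimpleGraph V} {U : Finset V} {u : V} (hu : u ∈ U) :
    u ∈ comp G U u := mem_comp.2 ⟨hu, Relation.ReflTransGen.refl⟩

theorem comp_closed {G : SimpleGraph V} {U : Finset V} {u a b : V} (ha : a ∈ comp G U u)
    (hb : b ∈ U) (h : G.Adj a b) : b ∈ comp G U u :=
  mem_comp.2 ⟨hb, Relation.ReflTransGen.tail (mem_comp.1 ha).2 ⟨(mem_comp.1 ha).1, hb, h⟩⟩

theorem comp_eq {G : SimpleGraph V} {U : Finset V} {u y : V} (hy : y ∈ comp G U u) :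
    comp G U y = comp G U u := by
  ext a
  rw [mem_comp, mem_comp]
  have h := (mem_comp.1 hy).2
  exact ⟨fun h' => ⟨h'.1, h.trans h'.2⟩, fun h' => ⟨h'.1, h.symm.trans h'.2⟩⟩

theorem comp_rch {G : SimpleGraph V} {U S : Finset V} {u y a : V} (hS : comp G U u ⊆ S)
    (hy : y ∈ comp G U u) (ha : a ∈ comp G U u) : Rch G S y a := by
  have h : Rch G U y a := (mem_comp.1 hy).2.symm.trans (mem_comp.1 ha).2
  have gen : ∀ b, Rch G U y b → b ∈ comp G U u ∧ Rch G S y b := by
    intro b hb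
    unfold Rch at hb
    induction hb with
    | refl => exact ⟨hy, Relation.ReflTransGen.refl⟩
    | tail _ h2 ih =>
      have h3 := comp_closed ih.1 h2.2.1 h2.2.2
      exact ⟨h3, Relation.ReflTransGen.tail ih.2 ⟨hS ih.1, hS h3, h2.2.2⟩⟩
  exact (gen a h).2

theorem comp_sdiff [DecidableEq V] {G : SimpleGraph V} {U T : Finset V} (hU : T ⊆ U)
    (hT : ∀ y ∈ T, comp G U y ⊆ T) (u : V) :
    ∀ y ∈ T \ comp G U u, comp G U y ⊆ T \ comp G U u := by
  intro y hy z hz
  obtain ⟨h1, h2⟩ := mem_sdiff.1 hy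
  refine mem_sdiff.2 ⟨hT y h1 hz, fun h => h2 ?_⟩
  rw [← comp_eq h, comp_eq hz]
  exact self_mem_comp (hU h1)

theorem Bd.picks {H : SimpleGraph W} {G : SimpleGraph V} {T T' : Finset V} {r : ℝ} (P : Finset V)
    (h : Bd H G T' r) (hT : ∀ a ∈ T, a ∈ P ∨ (∃ p ∈ P, G.Adj p a) ∨ a ∈ T') :
    Bd H G T (r + P.card) := by
  classical
  obtain ⟨D, h1, h2⟩ := h
  refine ⟨D ∪ P, fun f hf hx => ?_, ?_⟩
  · by_cases hc : ∀ y, f y ∈ T'
    · obtain ⟨y, hy⟩ := h1 f hf hc
      refine ⟨y, ?_⟩
      rcases hy with hy | ⟨d, hd, hy⟩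
      · exact Or.inl (mem_union_left _ hy)
      · exact Or.inr ⟨d, mem_union_left _ hd, hy⟩
    · push Not at hc
      obtain ⟨y, hy⟩ := hc
      rcases hT _ (hx y) with h | ⟨p, hp, h⟩ | h
      · exact ⟨y, Or.inl (mem_union_right _ h)⟩
      · exact ⟨y, Or.inr ⟨p, mem_union_right _ hp, h⟩⟩
      · exact absurd h hy
  · have : ((D ∪ P).card : ℝ) ≤ D.card + P.card := by exact_mod_cast card_union_le D P
    linarith

theorem reduce {H : SimpleGraph W} (hH : H.Connected) {c : ℝ} (hA : Asy H c) (hc : c ≤ 1 / 2)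
    [Fintype V] (G : SimpleGraph V) (hG : G.Connected) (P L Nv : Finset V) (hP : P.Nonempty)
    (hPL : Disjoint P L) (hNv : ∀ x, x ∈ Nv ↔ x ∉ P ∧ x ∉ L ∧ ∃ p ∈ P, G.Adj p x)
    (hL : Bd H G L 0) (hcL : ∀ a ∈ L, ∀ b, G.Adj a b → b ∈ L ∨ b ∈ P ∨ ∃ p ∈ P, G.Adj p b)
    (hd : (P.card : ℝ) ≤ c * (P.card + L.card + Nv.card / 2)) :
    Bd H G univ (c * Fintype.card V) := by
  classical
  by_contra hcon
  have hc0 : 0 < c := by
    by_contra h
    have h1 : (1 : ℝ) ≤ P.card := by exact_mod_cast hP.card_pos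
    have h2 : (0 : ℝ) ≤ P.card + L.card + Nv.card / 2 := by positivity
    nlinarith
  set U : Finset V := univ \ (P ∪ L ∪ Nv) with hU
  have hUm : ∀ a, a ∈ U ↔ a ∉ P ∧ a ∉ L ∧ a ∉ Nv := by
    intro a
    simp only [hU, mem_sdiff, mem_univ, true_and, mem_union, not_or, and_assoc]
  have hUc : (U.card : ℝ) + (P.card + L.card + Nv.card) = Fintype.card V := by
    have h := card_sdiff_add_card_eq_card (subset_univ (P ∪ L ∪ Nv))
    have hdis : Disjoint (P ∪ L) Nv := by
      refine disjoint_right.2 fun a ha h => ?_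
      rcases mem_union.1 h with h | h
      · exact ((hNv a).1 ha).1 h
      · exact ((hNv a).1 ha).2.1 h
    rw [card_union_of_disjoint hdis, card_union_of_disjoint hPL, card_univ] at h
    exact_mod_cast h
  have hUP : ∀ a ∈ U, ∀ p ∈ P, ¬ G.Adj p a := fun a ha p hp h =>
    ((hUm a).1 ha).2.2 ((hNv a).2 ⟨((hUm a).1 ha).1, ((hUm a).1 ha).2.1, p, hp, h⟩)
  have hUL : ∀ a ∈ U, ∀ b ∈ L, ¬ G.Adj a b := by
    intro a ha b hb h
    rcases hcL b hb a h.symm with h1 | h1 | ⟨p, hp, h1⟩
    · exact ((hUm a).1 ha).2.1 h1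
    · exact ((hUm a).1 ha).1 h1
    · exact hUP a ha p hp h1
  have nbr : ∀ u a b, a ∈ comp G U u → G.Adj a b → b ∈ comp G U u ∨ b ∈ Nv := by
    intro u a b ha h
    by_cases h1 : b ∈ Nv
    · exact Or.inr h1
    · have haU := (mem_comp.1 ha).1
      exact Or.inl (comp_closed ha
        ((hUm b).2 ⟨fun e => hUP a haU b e h.symm, fun e => hUL a haU b e h, h1⟩) h)
  have hNU : ∀ x ∈ Nv, ∀ u, x ∉ comp G U u := fun x hx u h =>
    ((hUm x).1 (mem_comp.1 h).1).2.2 hx
  have att : ∀ u ∈ U, ∃ x ∈ Nv, ∃ y ∈ comp G U u, G.Adj x y := by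
    intro u hu
    by_contra h
    push Not at h
    obtain ⟨v, hv⟩ := hP
    have hr := (G.reachable_iff_reflTransGen u v).1 (hG.preconnected u v)
    have gen : ∀ z, Relation.ReflTransGen G.Adj u z → z ∈ comp G U u := by
      intro z hz
      induction hz with
      | refl => exact self_mem_comp hu
      | tail _ h2 ih =>
        rcases nbr u _ _ ih h2 with h3 | h3
        · exact h3
        · exact absurd h2.symm (h _ h3 _ ih)
    exact ((hUm v).1 (mem_comp.1 (gen v hr)).1).1 hv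
  have B2 : ∀ u ∈ U, Bd H G (comp G U u) (c * ((comp G U u).card + 1)) := by
    intro u hu
    obtain ⟨x, hx, y, hy, hxy⟩ := att u hu
    have h := rooted hH hA G (insert x (comp G U u)) {x} (comp G U u) ?_ ?_
    · rw [card_insert_of_notMem (hNU x hx u)] at h
      exact_mod_cast h
    · intro a ha
      refine ⟨x, mem_singleton_self _, mem_insert_self _ _, ?_⟩
      rcases mem_insert.1 ha with e | ha
      · rw [e]; exact Relation.ReflTransGen.refl
      · exact Relation.ReflTransGen.head ⟨mem_insert_self _ _, mem_insert_of_mem hy, hxy⟩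
          (comp_rch (subset_insert _ _) hy ha)
    · intro a ha
      exact ⟨mem_insert_of_mem ha, fun e => hNU x hx u (mem_singleton.1 e ▸ ha)⟩
  have B3 : ∀ u ∈ U, ¬ Bd H G (comp G U u) (c * (comp G U u).card) → ∀ y ∈ comp G U u,
      Bd H G ((comp G U u).erase y) (c * ((comp G U u).card + 1) - 1) := by
    intro u hu hex y hy
    obtain ⟨D₁, a1, a2⟩ := rooted hH hA G (comp G U u) {y} ((comp G U u).erase y)
      (fun a ha => ⟨y, mem_singleton_self _, hy, comp_rch (Subset.refl _) hy ha⟩)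
      (fun a ha => ⟨mem_of_mem_erase ha, fun e => (mem_erase.1 ha).1 (mem_singleton.1 e)⟩)
    obtain ⟨D₂, b1, b2⟩ := B2 u hu
    have h1 : c * (comp G U u).card < D₂.card := by
      by_contra h
      exact hex ⟨D₂, b1, not_lt.1 h⟩
    have h2 : D₁.card < D₂.card := by exact_mod_cast a2.trans_lt h1
    have h3 : (D₁.card : ℝ) + 1 ≤ D₂.card := by exact_mod_cast h2
    exact ⟨D₁, a1, by linarith⟩
  have NP : ∀ u ∈ U, ¬ Bd H G (comp G U u) (c * (comp G U u).card) →
      ∃ x₁ ∈ Nv, ∃ x₂ ∈ Nv, x₁ ≠ x₂ ∧ (∃ y ∈ comp G U u, G.Adj x₁ y) ∧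
        ∃ y ∈ comp G U u, G.Adj x₂ y := by
    intro u hu hex
    obtain ⟨x, hx, y, hy, hxy⟩ := att u hu
    by_contra hno
    have nb : ∀ a b, a ∈ comp G U u → G.Adj a b → b ∈ insert x (comp G U u) := by
      intro a b ha h
      rcases nbr u a b ha h with h1 | h1
      · exact mem_insert_of_mem h1
      · by_cases e : b = x
        · rw [e]; exact mem_insert_self _ _
        · exact absurd ⟨b, h1, x, hx, e, ⟨a, ha, h.symm⟩, y, hy, hxy⟩ hno
    set S : Finset V := univ \ insert x (comp G U u) with hS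
    have hSm : ∀ a, a ∈ S ↔ a ∉ insert x (comp G U u) := by
      intro a
      rw [hS, mem_sdiff]
      simp only [mem_univ, true_and]
    have hSc : (S.card : ℝ) + ((comp G U u).card + 1) = Fintype.card V := by
      have h := card_sdiff_add_card_eq_card (subset_univ (insert x (comp G U u)))
      rw [card_insert_of_notMem (hNU x hx u), card_univ] at h
      exact_mod_cast h
    have h1 := rooted hH hA G S (S.filter fun a => G.Adj x a) (S.filter fun a => ¬ G.Adj x a) ?_ ?_
    · have h2 := (B3 u hu hex y hy).add hH h1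
        (T := (comp G U u).erase y ∪ S.filter fun a => ¬ G.Adj x a) (fun a ha => mem_union.1 ha)
        (fun a ha b hb h => absurd (nb a b (mem_of_mem_erase ha) h) ((hSm b).1 (mem_filter.1 hb).1))
      have h3 := h2.pick (T := univ) x (fun a _ => by
        by_cases e1 : a = x
        · exact Or.inl e1
        by_cases e2 : G.Adj x a
        · exact Or.inr (Or.inl e2)
        refine Or.inr (Or.inr ?_)
        by_cases e3 : a ∈ comp G U u
        · exact mem_union_left _ (mem_erase.2 ⟨fun e => e2 (e ▸ hxy), e3⟩)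
        · exact mem_union_right _ (mem_filter.2 ⟨(hSm a).2 (by simp [e1, e3]), e2⟩))
      refine hcon (h3.mono (Subset.refl _) (le_of_eq ?_))
      rw [← hSc]; ring
    · intro a ha
      have hr := (G.reachable_iff_reflTransGen x a).1 (hG.preconnected x a)
      have gen : ∀ z, Relation.ReflTransGen G.Adj x z → z ∈ S →
          ∃ r ∈ S.filter fun a => G.Adj x a, r ∈ S ∧ Rch G S r z := by
        intro z hz
        induction hz with
        | refl => intro h; exact absurd (mem_insert_self _ _) ((hSm x).1 h)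
        | @tail b z _ h2 ih =>
          intro hz
          by_cases hb : b ∈ S
          · obtain ⟨r, r1, r2, r3⟩ := ih hb
            exact ⟨r, r1, r2, Relation.ReflTransGen.tail r3 ⟨hb, hz, h2⟩⟩
          · have hb' : b ∈ insert x (comp G U u) := by
              by_contra h
              exact hb ((hSm b).2 h)
            rcases mem_insert.1 hb' with e | e
            · exact ⟨z, mem_filter.2 ⟨hz, e ▸ h2⟩, hz, Relation.ReflTransGen.refl⟩
            · exact absurd (nb b z e h2) ((hSm z).1 hz)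
      exact gen a hr ha
    · intro a ha
      exact ⟨(mem_filter.1 ha).1, fun h => (mem_filter.1 ha).2 (mem_filter.1 h).2⟩
  have ind : ∀ (k : ℕ) (T A : Finset V), T.card ≤ k → T ⊆ U → (∀ y ∈ T, comp G U y ⊆ T) →
      (∀ y ∈ T, ¬ Bd H G (comp G U y) (c * (comp G U y).card) → ∀ x ∈ Nv, G.Adj x y → x ∈ A) →
      Bd H G T (c * T.card + c * A.card / 2) := by
    intro k
    induction k with
    | zero =>
      intro T A hk _ _ _
      have : T = ∅ := card_eq_zero.1 (by omega)
      subst this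
      exact bd_empty hH G (by positivity)
    | succ k ih =>
      intro T A hk hTU hcl hinv
      rcases T.eq_empty_or_nonempty with e | ⟨u, hu⟩
      · subst e
        exact bd_empty hH G (by positivity)
      have huU := hTU hu
      have hQ := hcl u hu
      have hq1 : 1 ≤ (comp G U u).card := card_pos.2 ⟨u, self_mem_comp huU⟩
      have hc1 := card_sdiff_add_card_eq_card hQ
      have hc1' : ((T \ comp G U u).card : ℝ) + (comp G U u).card = T.card := by exact_mod_cast hc1
      have hT1U : T \ comp G U u ⊆ U := sdiff_subset.trans hTU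
      have hcl1 := comp_sdiff hTU hcl u
      have split : ∀ a ∈ T, a ∈ comp G U u ∨ a ∈ T \ comp G U u := by
        intro a ha
        by_cases h : a ∈ comp G U u
        · exact Or.inl h
        · exact Or.inr (mem_sdiff.2 ⟨ha, h⟩)
      have edge : ∀ a ∈ comp G U u, ∀ b ∈ T \ comp G U u, G.Adj a b → b ∈ comp G U u :=
        fun a ha b hb h => comp_closed ha (hT1U hb) h
      by_cases hex : Bd H G (comp G U u) (c * (comp G U u).card)
      · have h1 := ih (T \ comp G U u) A (by omega) hT1U hcl1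
          (fun y hy => hinv y (mem_sdiff.1 hy).1)
        refine (hex.add hH h1 split edge).mono (Subset.refl _) (le_of_eq ?_)
        rw [← hc1']; ring
      by_cases hp : ∃ x, ∃ y₁ ∈ comp G U u, ∃ y₂ ∈ T \ comp G U u, G.Adj x y₁ ∧ G.Adj x y₂ ∧
          ¬ Bd H G (comp G U y₂) (c * (comp G U y₂).card)
      · obtain ⟨x, y₁, hy₁, y₂, hy₂, a1, a2, hex2⟩ := hp
        have hQ2 := hcl1 y₂ hy₂
        have hc2 := card_sdiff_add_card_eq_card hQ2
        have hc2' : (((T \ comp G U u) \ comp G U y₂).card : ℝ) + (comp G U y₂).card =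
            (T \ comp G U u).card := by exact_mod_cast hc2
        have h1 := ih ((T \ comp G U u) \ comp G U y₂) A (by omega) (sdiff_subset.trans hT1U)
          (comp_sdiff hT1U hcl1 y₂) (fun y hy => hinv y (mem_sdiff.1 (mem_sdiff.1 hy).1).1)
        have h2 := (B3 y₂ (hT1U hy₂) hex2 y₂ (self_mem_comp (hT1U hy₂))).add hH h1
          (T := (T \ comp G U u).erase y₂)
          (fun a ha => by
            by_cases h : a ∈ comp G U y₂
            · exact Or.inl (mem_erase.2 ⟨(mem_erase.1 ha).1, h⟩)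
            · exact Or.inr (mem_sdiff.2 ⟨(mem_erase.1 ha).2, h⟩))
          (fun a ha b hb h => absurd
            (comp_closed (mem_of_mem_erase ha) (hT1U (mem_sdiff.1 hb).1) h) (mem_sdiff.1 hb).2)
        have h3 := (B3 u huU hex y₁ hy₁).add hH h2
          (T := (comp G U u).erase y₁ ∪ (T \ comp G U u).erase y₂) (fun a ha => mem_union.1 ha)
          (fun a ha b hb h => absurd (edge a (mem_of_mem_erase ha) b (mem_of_mem_erase hb) h)
            (mem_sdiff.1 (mem_of_mem_erase hb)).2)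
        have h4 := h3.pick (T := T) x (fun a ha => by
          by_cases e2 : G.Adj x a
          · exact Or.inr (Or.inl e2)
          refine Or.inr (Or.inr ?_)
          rcases split a ha with h | h
          · exact mem_union_left _ (mem_erase.2 ⟨fun e => e2 (e ▸ a1), h⟩)
          · exact mem_union_right _ (mem_erase.2 ⟨fun e => e2 (e ▸ a2), h⟩))
        refine h4.mono (Subset.refl _) ?_
        rw [← hc1', ← hc2']
        nlinarith
      · obtain ⟨x₁, hx₁, x₂, hx₂, hne, ⟨y₁, hy₁, a1⟩, y₂, hy₂, a2⟩ := NP u huU hex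
        have m1 : x₁ ∈ A := hinv y₁ (hQ hy₁) (by rw [comp_eq hy₁]; exact hex) x₁ hx₁ a1
        have m2 : x₂ ∈ A := hinv y₂ (hQ hy₂) (by rw [comp_eq hy₂]; exact hex) x₂ hx₂ a2
        have hsub : ({x₁, x₂} : Finset V) ⊆ A := by
          intro a ha
          rcases mem_insert.1 ha with e | e
          · exact e ▸ m1
          · exact mem_singleton.1 e ▸ m2
        have hc3 := card_sdiff_add_card_eq_card hsub
        rw [card_pair hne] at hc3
        have hc3' : ((A \ {x₁, x₂}).card : ℝ) + 2 = A.card := by exact_mod_cast hc3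
        have h1 := ih (T \ comp G U u) (A \ {x₁, x₂}) (by omega) hT1U hcl1 (fun y hy hey x hx h => by
          refine mem_sdiff.2 ⟨hinv y (mem_sdiff.1 hy).1 hey x hx h, fun hm => hp ?_⟩
          rcases mem_insert.1 hm with e | e
          · exact ⟨x, y₁, hy₁, y, hy, e ▸ a1, h, hey⟩
          · exact ⟨x, y₂, hy₂, y, hy, mem_singleton.1 e ▸ a2, h, hey⟩)
        refine ((B2 u huU).add hH h1 split edge).mono (Subset.refl _) (le_of_eq ?_)
        rw [← hc1', ← hc3']; ring
  have h1 := ind U.card U Nv (le_refl _) (Subset.refl _)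
    (fun y _ a ha => (mem_comp.1 ha).1) (fun _ _ _ x hx _ => hx)
  have h2 := h1.add hH hL (T := U ∪ L) (fun a ha => mem_union.1 ha)
    (fun a ha b hb h => absurd h (hUL a ha b hb))
  have h3 := h2.picks (T := univ) P (fun a _ => by
    by_cases e1 : a ∈ P
    · exact Or.inl e1
    by_cases e2 : a ∈ L
    · exact Or.inr (Or.inr (mem_union_right _ e2))
    by_cases e3 : a ∈ Nv
    · exact Or.inr (Or.inl ((hNv a).1 e3).2.2)
    exact Or.inr (Or.inr (mem_union_left _ ((hUm a).2 ⟨e1, e2, e3⟩))))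
  refine hcon (h3.mono (Subset.refl _) ?_)
  rw [← hUc]
  nlinarith

/-- Ore's bound: a graph without isolated vertices has a dominating set of at most half the order. -/
theorem ore [Fintype V] (G : SimpleGraph V) (h : ∀ a, ∃ b, G.Adj a b) :
    ∃ D : Finset V, (∀ a, a ∈ D ∨ ∃ d ∈ D, G.Adj d a) ∧ 2 * D.card ≤ Fintype.card V := by
  classical
  obtain ⟨D, hD, hmin⟩ := exists_min_image
    ((univ : Finset (Finset V)).filter fun D => ∀ a, a ∈ D ∨ ∃ d ∈ D, G.Adj d a) card
    ⟨univ, by simp⟩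
  have hD' := (mem_filter.1 hD).2
  have hm : ∀ E : Finset V, (∀ a, a ∈ E ∨ ∃ d ∈ E, G.Adj d a) → D.card ≤ E.card :=
    fun E hE => hmin E (mem_filter.2 ⟨mem_univ _, hE⟩)
  refine ⟨D, hD', ?_⟩
  have h1 : D.card ≤ Dᶜ.card := by
    refine hm _ fun a => ?_
    by_contra hno
    push Not at hno
    have ha : a ∈ D := by simpa using hno.1
    have hin : ∀ b, G.Adj a b → b ∈ D := by
      intro b hb
      by_contra hb'
      exact hno.2 b (mem_compl.2 hb') hb.symm
    have h2 := hm (D.erase a) fun z => by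
      by_cases e : z = a
      · obtain ⟨b, hb⟩ := h a
        exact Or.inr ⟨b, mem_erase.2 ⟨hb.ne.symm, hin b hb⟩, e ▸ hb.symm⟩
      by_cases hz : z ∈ D
      · exact Or.inl (mem_erase.2 ⟨e, hz⟩)
      obtain ⟨d, hd, hdz⟩ := (hD' z).resolve_left hz
      exact Or.inr ⟨d, mem_erase.2 ⟨fun e' => hz (hin z (e' ▸ hdz)), hd⟩, hdz⟩
    have h3 := card_erase_lt_of_mem ha
    omega
  have h2 := card_add_card_compl D
  omega

/-- From graphs on `Fin n` to graphs on any finite type. -/
theorem asy_of_fin {H : SimpleGraph W} {c : ℝ}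
    (h : ∀ ε : ℝ, 0 < ε → ∀ N : ℕ, ∃ n : ℕ, N ≤ n ∧ ∀ G : SimpleGraph (Fin n), G.Connected →
      Bd H G univ ((c + ε) * n)) : Asy H c := by
  intro ε hε N
  obtain ⟨n, hn, hN⟩ := h ε hε N
  refine ⟨n, hn, fun X _ G hc hG => ?_⟩
  let e := (Fintype.equivFinOfCardEq hc).symm
  let φ : G →g G.comap e := ⟨e.symm, fun {a b} hab => by simpa using hab⟩
  obtain ⟨D, h1, h2⟩ := hN (G.comap e) (hG.map φ e.symm.surjective)
  refine ⟨D.map e.toEmbedding, fun f hf _ => ?_, by simpa using h2⟩
  obtain ⟨x, hx⟩ := h1 (φ.comp f) (e.symm.injective.comp hf) fun _ => mem_univ _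
  refine ⟨x, ?_⟩
  rcases hx with hx | ⟨d, hd, hx⟩
  · exact Or.inl (mem_map.2 ⟨_, hx, e.apply_symm_apply _⟩)
  · refine Or.inr ⟨e d, mem_map.2 ⟨d, hd, rfl⟩, ?_⟩
    have h3 : G.Adj (e d) (e (e.symm (f x))) := hx
    simpa using h3

/-- The least constant with the asymptotic bound along infinitely many orders. -/
theorem exists_const {H : SimpleGraph W} (hH : H.Connected) :
    ∃ c : ℝ, Asy H c ∧ c ≤ 1 / 2 ∧ ∀ ε : ℝ, 0 < ε → ∃ N : ℕ, ∀ n : ℕ, N ≤ n → ∃ G : SimpleGraph (Fin n),
      G.Connected ∧ ∀ D : Finset (Fin n), Cl H G univ D → (c - ε) * n ≤ D.card := by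
  obtain ⟨w⟩ := hH.nonempty
  let P : Set ℝ := {c | ∀ ε : ℝ, 0 < ε → ∀ N : ℕ, ∃ n : ℕ, N ≤ n ∧
    ∀ G : SimpleGraph (Fin n), G.Connected → Bd H G univ ((c + ε) * n)}
  have hhalf : (1 / 2 : ℝ) ∈ P := by
    refine fun ε hε N => ⟨N + 2, by omega, fun G hG => ?_⟩
    have hnb : ∀ a, ∃ b, G.Adj a b := by
      intro a
      obtain ⟨v, hv⟩ := exists_ne a
      rcases Relation.ReflTransGen.cases_head
        ((G.reachable_iff_reflTransGen a v).1 (hG.preconnected a v)) with h | ⟨b, hb, -⟩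
      · exact absurd h.symm hv
      · exact ⟨b, hb⟩
    obtain ⟨D, h1, h2⟩ := ore G hnb
    refine ⟨D, fun f _ _ => ⟨w, h1 _⟩, ?_⟩
    rw [Fintype.card_fin] at h2
    have h3 : 2 * (D.card : ℝ) ≤ (N + 2 : ℕ) := by exact_mod_cast h2
    have h4 : (0 : ℝ) ≤ (N + 2 : ℕ) := by positivity
    nlinarith
  have hne : P.Nonempty := ⟨_, hhalf⟩
  have hbd : BddBelow P := by
    refine ⟨0, fun c hc => ?_⟩
    by_contra hlt
    have hlt' : c < 0 := not_le.1 hlt
    obtain ⟨n, hn, hG⟩ := hc (-c / 2) (by linarith) 1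
    have : Nonempty (Fin n) := ⟨⟨0, hn⟩⟩
    obtain ⟨D, -, h2⟩ := hG ⊤ SimpleGraph.connected_top
    have h3 : (0 : ℝ) ≤ D.card := by positivity
    have h4 : (1 : ℝ) ≤ n := by exact_mod_cast hn
    nlinarith
  refine ⟨sInf P, asy_of_fin fun ε hε N => ?_, csInf_le hbd hhalf, fun ε hε => ?_⟩
  · obtain ⟨c', hc', hlt⟩ := exists_lt_of_csInf_lt hne (show sInf P < sInf P + ε / 2 by linarith)
    obtain ⟨n, hn, hG⟩ := hc' (ε / 2) (by linarith) N
    refine ⟨n, hn, fun G h => (hG G h).mono (Subset.refl _) ?_⟩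
    have : (0 : ℝ) ≤ n := by positivity
    nlinarith
  · have hnot : sInf P - ε ∉ P := fun h => by
      have := csInf_le hbd h
      linarith
    by_contra hcon
    refine hnot fun η hη N => ?_
    by_contra h2
    refine hcon ⟨N, fun n hn => ?_⟩
    by_contra h3
    refine h2 ⟨n, hn, fun G hG => ?_⟩
    by_contra h4
    refine h3 ⟨G, hG, fun D hD => ?_⟩
    by_contra h5
    refine h4 ⟨D, hD, ?_⟩
    have : (0 : ℝ) ≤ n := by positivity
    have h6 := not_le.1 h5
    nlinarith

theorem cl_univ_iff {H : SimpleGraph W} [Fintype V] {G : SimpleGraph V} {D : Finset V} :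
    Cl H G univ D ↔
      ¬ ∃ f : H →g G, Function.Injective f ∧ ∀ x, f x ∉ D ∧ ∀ d ∈ D, ¬ G.Adj d (f x) := by
  constructor
  · rintro h ⟨f, hf, hx⟩
    obtain ⟨x, h1 | ⟨d, hd, h1⟩⟩ := h f hf fun _ => mem_univ _
    · exact (hx x).1 h1
    · exact (hx x).2 d hd h1
  · intro h f hf _
    by_contra hno
    push Not at hno
    exact h ⟨f, hf, hno⟩

end Pool.Agent.FS.A20Deg
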