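import Mathlib

/-! Isolation of a connected graph: the rooted bound that follows from an asymptotic bound. -/

set_option autoImplicit false

namespace Pool.Agent.FS.A20Deg

open Finset

variable {W V : Type}

/-- Every copy of `H` inside `T` meets the closed neighbourhood of `D`. -/
def Cl (H : SimpleGraph W) (G : SimpleGraph V) (T D : Finset V) : Prop :=
  ∀ f : H →g G, Function.Injective f → (∀ x, f x ∈ T) → ∃ x, f x ∈ D ∨ ∃ d ∈ D, G.Adj d (f x)

/-- `T` can be cleaned with at most `r` picks. -/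
def Bd (H : SimpleGraph W) (G : SimpleGraph V) (T : Finset V) (r : ℝ) : Prop :=
  ∃ D : Finset V, Cl H G T D ∧ (D.card : ℝ) ≤ r

/-- Reachability inside `S`. -/
def Rch (G : SimpleGraph V) (S : Finset V) (a b : V) : Prop :=
  Relation.ReflTransGen (fun p q => p ∈ S ∧ q ∈ S ∧ G.Adj p q) a b

/-- The asymptotic bound along infinitely many orders, for graphs on any finite type. -/
def Asy (H : SimpleGraph W) (c : ℝ) : Prop :=
  ∀ ε : ℝ, 0 < ε → ∀ N : ℕ, ∃ n : ℕ, N ≤ n ∧ ∀ (X : Type) [Fintype X] (G : SimpleGraph X),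
    Fintype.card X = n → G.Connected → Bd H G univ ((c + ε) * n)

theorem Rch.symm {G : SimpleGraph V} {S : Finset V} {a b : V} (h : Rch G S a b) : Rch G S b a := by
  unfold Rch at h ⊢
  induction h with
  | refl => exact Relation.ReflTransGen.refl
  | tail _ h2 ih => exact Relation.ReflTransGen.head ⟨h2.2.1, h2.1, h2.2.2.symm⟩ ih

theorem Rch.trans {G : SimpleGraph V} {S : Finset V} {a b d : V} (h : Rch G S a b)
    (h' : Rch G S b d) : Rch G S a d := Relation.ReflTransGen.trans h h'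

theorem Rch.mem {G : SimpleGraph V} {S : Finset V} {a b : V} (h : Rch G S a b) (ha : a ∈ S) :
    b ∈ S := by
  unfold Rch at h
  induction h with
  | refl => exact ha
  | tail _ h2 _ => exact h2.2.1

theorem Bd.mono {H : SimpleGraph W} {G : SimpleGraph V} {T T' : Finset V} {r r' : ℝ}
    (h : Bd H G T r) (hT : T' ⊆ T) (hr : r ≤ r') : Bd H G T' r' := by
  obtain ⟨D, h1, h2⟩ := h
  exact ⟨D, fun f hf hx => h1 f hf fun x => hT (hx x), h2.trans hr⟩

theorem bd_empty {H : SimpleGraph W} (hH : H.Connected) (G : SimpleGraph V) {r : ℝ} (hr : 0 ≤ r) :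
    Bd H G ∅ r := by
  refine ⟨∅, fun f _ hx => ?_, by simpa using hr⟩
  obtain ⟨x⟩ := hH.nonempty
  exact absurd (hx x) (by simp)

/-- One pick removes a closed neighbourhood. -/
theorem Bd.pick {H : SimpleGraph W} {G : SimpleGraph V} {T T' : Finset V} {r : ℝ} (x : V)
    (h : Bd H G T' r) (hT : ∀ a ∈ T, a = x ∨ G.Adj x a ∨ a ∈ T') : Bd H G T (r + 1) := by
  classical
  obtain ⟨D, h1, h2⟩ := h
  refine ⟨insert x D, fun f hf hx => ?_, ?_⟩
  · by_cases hc : ∀ y, f y ∈ T'
    · obtain ⟨y, hy⟩ := h1 f hf hc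
      refine ⟨y, ?_⟩
      rcases hy with hy | ⟨d, hd, hy⟩
      · exact Or.inl (mem_insert_of_mem hy)
      · exact Or.inr ⟨d, mem_insert_of_mem hd, hy⟩
    · push Not at hc
      obtain ⟨y, hy⟩ := hc
      rcases hT _ (hx y) with h | h | h
      · exact ⟨y, Or.inl (by rw [h]; exact mem_insert_self _ _)⟩
      · exact ⟨y, Or.inr ⟨x, mem_insert_self _ _, h⟩⟩
      · exact absurd h hy
  · have : ((insert x D).card : ℝ) ≤ D.card + 1 := by exact_mod_cast card_insert_le x D
    linarith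

/-- Parts with no edge between them are cleaned separately. -/
theorem Bd.add {H : SimpleGraph W} (hH : H.Connected) {G : SimpleGraph V} {T T₁ T₂ : Finset V}
    {r₁ r₂ : ℝ} (h₁ : Bd H G T₁ r₁) (h₂ : Bd H G T₂ r₂) (hT : ∀ a ∈ T, a ∈ T₁ ∨ a ∈ T₂)
    (hE : ∀ a ∈ T₁, ∀ b ∈ T₂, G.Adj a b → b ∈ T₁) : Bd H G T (r₁ + r₂) := by
  classical
  obtain ⟨D₁, a1, a2⟩ := h₁
  obtain ⟨D₂, b1, b2⟩ := h₂
  refine ⟨D₁ ∪ D₂, fun f hf hx => ?_, ?_⟩
  · by_cases hc : ∀ y, f y ∈ T₂
    · obtain ⟨y, hy⟩ := b1 f hf hc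
      refine ⟨y, ?_⟩
      rcases hy with hy | ⟨d, hd, hy⟩
      · exact Or.inl (mem_union_right _ hy)
      · exact Or.inr ⟨d, mem_union_right _ hd, hy⟩
    · push Not at hc
      obtain ⟨y, hy⟩ := hc
      have hy1 : f y ∈ T₁ := (hT _ (hx y)).resolve_right hy
      have hall : ∀ z, f z ∈ T₁ := by
        intro z
        have hr := (H.reachable_iff_reflTransGen y z).1 (hH.preconnected y z)
        induction hr with
        | refl => exact hy1
        | tail _ h2 ih =>
          rcases hT _ (hx _) with h | h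
          · exact h
          · exact hE _ ih _ h (f.map_adj h2)
      obtain ⟨z, hz⟩ := a1 f hf hall
      refine ⟨z, ?_⟩
      rcases hz with hz | ⟨d, hd, hz⟩
      · exact Or.inl (mem_union_left _ hz)
      · exact Or.inr ⟨d, mem_union_left _ hd, hz⟩
  · have : ((D₁ ∪ D₂).card : ℝ) ≤ D₁.card + D₂.card := by exact_mod_cast card_union_le D₁ D₂
    linarith

/-- `t` copies of `G[S]`, one new vertex joined to all roots, and `j` leaves at the new vertex. -/
def big (G : SimpleGraph V) (S R : Finset V) (j t : ℕ) :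
    SimpleGraph (Option (Fin j ⊕ Fin t × S)) :=
  SimpleGraph.fromRel fun p q =>
    (∃ (i : Fin t) (a b : S), p = some (.inr (i, a)) ∧ q = some (.inr (i, b)) ∧ G.Adj a b) ∨
      (p = none ∧ ∀ (i : Fin t) (a : S), q = some (.inr (i, a)) → (a : V) ∈ R)

theorem big_adj {G : SimpleGraph V} {S R : Finset V} {j t : ℕ} (i : Fin t) {a b : S}
    (h : G.Adj a b) : (big G S R j t).Adj (some (.inr (i, a))) (some (.inr (i, b))) := by
  refine (SimpleGraph.fromRel_adj _ _ _).2 ⟨?_, Or.inl (Or.inl ⟨i, a, b, rfl, rfl, h⟩)⟩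
  intro he
  have : a = b := by simpa using he
  exact h.ne (by rw [this])

theorem big_conn {G : SimpleGraph V} {S R : Finset V} (j t : ℕ)
    (hR : ∀ a ∈ S, ∃ r ∈ R, r ∈ S ∧ Rch G S r a) : (big G S R j t).Connected := by
  have key : ∀ p, (big G S R j t).Reachable none p := by
    intro p
    rcases p with _ | l | ⟨i, a⟩
    · exact SimpleGraph.Reachable.refl _
    · refine SimpleGraph.Adj.reachable ((SimpleGraph.fromRel_adj _ _ _).2 ⟨by simp, ?_⟩)
      exact Or.inl (Or.inr ⟨rfl, fun i a h => absurd h (by simp)⟩)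
    · obtain ⟨r, hr, hrS, hra⟩ := hR a a.2
      have gen : ∀ b : V, Rch G S r b → ∀ hb : b ∈ S,
          (big G S R j t).Reachable none (some (.inr (i, ⟨b, hb⟩))) := by
        intro b h
        unfold Rch at h
        induction h with
        | refl =>
          intro hb
          refine SimpleGraph.Adj.reachable ((SimpleGraph.fromRel_adj _ _ _).2 ⟨by simp, ?_⟩)
          refine Or.inl (Or.inr ⟨rfl, fun i' a' h => ?_⟩)
          obtain ⟨-, e⟩ := Prod.mk.inj (Sum.inr.inj (Option.some.inj h))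
          exact e ▸ hr
        | tail _ h2 ih =>
          intro hb
          exact (ih h2.1).trans (big_adj i (a := ⟨_, h2.1⟩) (b := ⟨_, hb⟩) h2.2.2).reachable
      exact gen a hra a.2
  exact ⟨fun p q => (key p).symm.trans (key q)⟩

/-- The rooted bound. -/
theorem rooted {H : SimpleGraph W} (hH : H.Connected) {c : ℝ} (hA : Asy H c)
    (G : SimpleGraph V) (S R T : Finset V) (hR : ∀ a ∈ S, ∃ r ∈ R, r ∈ S ∧ Rch G S r a)
    (hT : ∀ a ∈ T, a ∈ S ∧ a ∉ R) : Bd H G T (c * S.card) := by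
  classical
  rcases S.eq_empty_or_nonempty with hS | hS
  · refine (bd_empty hH G (le_refl 0)).mono (fun a ha => ?_) (by simp [hS])
    have := (hT a ha).1
    rw [hS] at this
    exact this
  by_contra hcon
  set s : ℕ := S.card with hs
  have hs1 : 1 ≤ s := hS.card_pos
  have hs0 : (0 : ℝ) < s := by exact_mod_cast hs1
  set m : ℤ := ⌊c * s⌋ + 1 with hm
  have hmc : c * s < m := by rw [hm]; push_cast; exact Int.lt_floor_add_one _
  have hlow : ∀ D : Finset V, Cl H G T D → (m : ℝ) ≤ D.card := by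
    intro D hD
    have h1 : c * s < D.card := by
      by_contra h
      exact hcon ⟨D, hD, not_lt.1 h⟩
    have h2 : ⌊c * s⌋ < (D.card : ℤ) := Int.floor_lt.2 (by exact_mod_cast h1)
    have h3 : m ≤ (D.card : ℤ) := by omega
    exact_mod_cast h3
  set δ : ℝ := m - c * s with hδ
  have hδ0 : 0 < δ := by linarith
  obtain ⟨t₀, ht₀⟩ := exists_nat_gt (2 * (|c| * s) / δ)
  obtain ⟨n, hn, hN⟩ := hA (δ / (4 * s)) (by positivity) (s * (t₀ + 1) + 1)
  set t : ℕ := (n - 1) / s with ht
  set j : ℕ := (n - 1) % s with hj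
  have hjs : j < s := Nat.mod_lt _ hs1
  have hdm : s * t + j = n - 1 := Nat.div_add_mod _ _
  have htt : t₀ + 1 ≤ t := (Nat.le_div_iff_mul_le hs1).2 (by rw [mul_comm]; omega)
  have hn' : n = j + t * s + 1 := by rw [mul_comm t s]; omega
  clear_value t j
  have hcard : Fintype.card (Option (Fin j ⊕ Fin t × S)) = n := by
    rw [Fintype.card_option, Fintype.card_sum, Fintype.card_prod, Fintype.card_fin,
      Fintype.card_fin, Fintype.card_coe]
    exact hn'.symm
  obtain ⟨D, hD, hDc⟩ := hN (Option (Fin j ⊕ Fin t × S)) (big G S R j t) hcard (big_conn j t hR)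
  let E : Fin t → Finset S := fun i => univ.filter fun a => some (Sum.inr (i, a)) ∈ D
  have hE : ∀ i, (m : ℝ) ≤ (E i).card := by
    intro i
    have h := hlow ((E i).map (Function.Embedding.subtype _)) ?_
    · simpa using h
    intro f hf hx
    let g : H →g big G S R j t :=
      ⟨fun x => some (.inr (i, ⟨f x, (hT _ (hx x)).1⟩)), fun h => big_adj i (f.map_adj h)⟩
    have hg : Function.Injective g := by
      intro x y h
      have h' : some (Sum.inr (i, (⟨f x, (hT _ (hx x)).1⟩ : S)) : Fin j ⊕ Fin t × S) =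
          some (.inr (i, ⟨f y, (hT _ (hx y)).1⟩)) := h
      exact hf (by simpa using h')
    obtain ⟨x, h⟩ := hD g hg fun _ => mem_univ _
    refine ⟨x, ?_⟩
    rcases h with h | ⟨d, hd, h⟩
    · exact Or.inl (mem_map.2 ⟨⟨f x, (hT _ (hx x)).1⟩, mem_filter.2 ⟨mem_univ _, h⟩, rfl⟩)
    · have h' : (big G S R j t).Adj d (some (.inr (i, ⟨f x, (hT _ (hx x)).1⟩))) := h
      obtain ⟨-, h2⟩ := (SimpleGraph.fromRel_adj _ _ _).1 h'
      rcases h2 with (⟨l, a, b, e1, e2, hab⟩ | ⟨-, ha⟩) | (⟨l, a, b, e1, e2, hab⟩ | ⟨e1, -⟩)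
      · obtain ⟨e3, e4⟩ := Prod.mk.inj (Sum.inr.inj (Option.some.inj e2))
        subst e3 e4
        exact Or.inr ⟨a, mem_map.2 ⟨a, mem_filter.2 ⟨mem_univ _, e1 ▸ hd⟩, rfl⟩, hab⟩
      · exact absurd (ha _ _ rfl) (hT _ (hx x)).2
      · obtain ⟨e3, e4⟩ := Prod.mk.inj (Sum.inr.inj (Option.some.inj e1))
        subst e3 e4
        exact Or.inr ⟨b, mem_map.2 ⟨b, mem_filter.2 ⟨mem_univ _, e2 ▸ hd⟩, rfl⟩, hab.symm⟩
      · exact absurd e1 (by simp)
  have hsum : ∑ i, (E i).card ≤ D.card := by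
    rw [← card_sigma]
    refine card_le_card_of_injOn (fun p => some (.inr (p.1, p.2))) (fun p hp => ?_)
      (fun p _ q _ h => ?_)
    · exact (mem_filter.1 (mem_sigma.1 (mem_coe.1 hp)).2).2
    · obtain ⟨e1, e2⟩ := Prod.mk.inj (Sum.inr.inj (Option.some.inj h))
      exact Sigma.ext e1 (heq_of_eq e2)
  have h1 : (t : ℝ) * m ≤ D.card := by
    have h2 : ∑ _i : Fin t, (m : ℝ) ≤ ∑ i, ((E i).card : ℝ) := sum_le_sum fun i _ => hE i
    have h3 : (∑ i, ((E i).card : ℝ)) ≤ D.card := by exact_mod_cast hsum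
    simp only [sum_const, card_univ, Fintype.card_fin, nsmul_eq_mul] at h2
    linarith
  have ht1 : (1 : ℝ) ≤ t := by exact_mod_cast (by omega : 1 ≤ t)
  have ht2 : 2 * (|c| * s) < t * δ := by
    have h2 : (t₀ : ℝ) ≤ t := by exact_mod_cast (by omega : t₀ ≤ t)
    rw [div_lt_iff₀ hδ0] at ht₀
    nlinarith
  have hjs' : (j : ℝ) + 1 ≤ s := by exact_mod_cast hjs
  have hnr : (n : ℝ) = j + t * s + 1 := by exact_mod_cast hn'
  have h4 : δ / (4 * s) * n ≤ t * δ / 2 := by
    have h6 : (n : ℝ) ≤ 2 * (t * s) := by nlinarith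
    rw [div_mul_eq_mul_div, div_le_div_iff₀ (mul_pos four_pos hs0) two_pos]
    nlinarith [mul_le_mul_of_nonneg_left h6 hδ0.le]
  have h7 : c * (j + 1) ≤ |c| * s :=
    (mul_le_mul_of_nonneg_right (le_abs_self c) (by positivity)).trans
      (mul_le_mul_of_nonneg_left hjs' (abs_nonneg c))
  have h5 : (t : ℝ) * m = t * δ + c * (t * s) := by rw [hδ]; ring
  have h8 : (c + δ / (4 * s)) * n = c * (t * s) + c * (j + 1) + δ / (4 * s) * n := by
    have h9 : c * n = c * (t * s) + c * (j + 1) := by rw [hnr]; ring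
    rw [add_mul, h9]
  linarith

/-- `G` with one new leaf at `r`. -/
def plus (G : SimpleGraph V) (r : V) : SimpleGraph (Option V) :=
  SimpleGraph.fromRel fun p q =>
    (∃ a b, p = some a ∧ q = some b ∧ G.Adj a b) ∨ (p = none ∧ q = some r)

theorem plus_adj {G : SimpleGraph V} (r : V) {a b : V} (h : G.Adj a b) :
    (plus G r).Adj (some a) (some b) :=
  (SimpleGraph.fromRel_adj _ _ _).2
    ⟨fun e => h.ne (Option.some.inj e), Or.inl (Or.inl ⟨a, b, rfl, rfl, h⟩)⟩

/-- The bound `c (n + 1)` for every connected graph. -/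
theorem unrooted {H : SimpleGraph W} (hH : H.Connected) {c : ℝ} (hA : Asy H c) [Fintype V]
    (G : SimpleGraph V) (hG : G.Connected) : Bd H G univ (c * (Fintype.card V + 1)) := by
  classical
  obtain ⟨r⟩ := hG.nonempty
  obtain ⟨D, h1, h2⟩ := rooted hH hA (plus G r) univ {none} (univ.erase none) (by
      intro a _
      refine ⟨none, mem_singleton_self _, mem_univ _, ?_⟩
      rcases a with _ | a
      · exact Relation.ReflTransGen.refl
      · have hr := (G.reachable_iff_reflTransGen r a).1 (hG.preconnected r a)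
        induction hr with
        | refl =>
          exact Relation.ReflTransGen.single ⟨mem_univ _, mem_univ _,
            (SimpleGraph.fromRel_adj _ _ _).2 ⟨by simp, Or.inl (Or.inr ⟨rfl, rfl⟩)⟩⟩
        | tail _ h2 ih =>
          exact Relation.ReflTransGen.tail (ih (mem_univ _)) ⟨mem_univ _, mem_univ _, plus_adj r h2⟩)
    (fun a ha => ⟨mem_univ _, fun e => (mem_erase.1 ha).1 (mem_singleton.1 e)⟩)
  refine ⟨D.image fun p => p.getD r, fun f hf _ => ?_, ?_⟩
  · let g : H →g plus G r := ⟨fun x => some (f x), fun h => plus_adj r (f.map_adj h)⟩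
    obtain ⟨x, h⟩ := h1 g (fun x y h => hf (Option.some.inj h))
      (fun x => mem_erase.2 ⟨Option.some_ne_none _, mem_univ _⟩)
    refine ⟨x, ?_⟩
    rcases h with h | ⟨d, hd, h⟩
    · exact Or.inl (mem_image.2 ⟨_, h, rfl⟩)
    · have h' : (plus G r).Adj d (some (f x)) := h
      obtain ⟨-, h3⟩ := (SimpleGraph.fromRel_adj _ _ _).1 h'
      rcases h3 with (⟨a, b, e1, e2, hab⟩ | ⟨e1, e2⟩) | (⟨a, b, e1, e2, hab⟩ | ⟨e1, -⟩)
      · exact Or.inr ⟨a, mem_image.2 ⟨d, hd, by rw [e1]; rfl⟩, (Option.some.inj e2) ▸ hab⟩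
      · exact Or.inl (mem_image.2 ⟨d, hd, by rw [e1, Option.some.inj e2]; rfl⟩)
      · exact Or.inr ⟨b, mem_image.2 ⟨d, hd, by rw [e2]; rfl⟩, (Option.some.inj e1) ▸ hab.symm⟩
      · exact absurd e1 (by simp)
  · have h3 : ((D.image fun p => p.getD r).card : ℝ) ≤ D.card := by exact_mod_cast card_image_le
    rw [card_univ, Fintype.card_option] at h2
    push_cast at h2
    linarith

end Pool.Agent.FS.A20Deg
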